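import Pool.Agent.Helper914.Iversen.MaxP
import Pool.Agent.Helper914.Iversen.Sing
import Pool.Agent.Helper914.Iversen.Cantor

/-!
# The range defect in a fibre can have positive logarithmic capacity
-/

set_option autoImplicit false
open Complex Metric Filter Topology Set MeasureTheory
open scoped ENNReal BoundedContinuousFunction

namespace Pool.Agent.Results.MP_83fe1a_an.CapacityOfRangeDefect
open Pool.Agent.Helper914.Iversen

/-- The bounded continuous function `u` on `V` is analytic on `V`. -/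
def IsAnalytic (V : Set ℂ) (u : V →ᵇ ℂ) : Prop :=
  ∃ g : ℂ → ℂ, DifferentiableOn ℂ g V ∧ ∀ z : V, u z = g z

lemma IsAnalytic.mul {V : Set ℂ} {u v : V →ᵇ ℂ} (hu : IsAnalytic V u) (hv : IsAnalytic V v) :
    IsAnalytic V (u * v) := by
  obtain ⟨g, hg, h1⟩ := hu
  obtain ⟨k, hk, h2⟩ := hv
  exact ⟨fun z => g z * k z, hg.mul hk, fun z => by simp [h1, h2]⟩

lemma IsAnalytic.add {V : Set ℂ} {u v : V →ᵇ ℂ} (hu : IsAnalytic V u) (hv : IsAnalytic V v) :
    IsAnalytic V (u + v) := by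
  obtain ⟨g, hg, h1⟩ := hu
  obtain ⟨k, hk, h2⟩ := hv
  exact ⟨fun z => g z + k z, hg.add hk, fun z => by simp [h1, h2]⟩

lemma IsAnalytic.const {V : Set ℂ} (c : ℂ) : IsAnalytic V (algebraMap ℂ (V →ᵇ ℂ) c) :=
  ⟨fun _ => c, differentiableOn_const c, fun z => by simp⟩

/-- `H^∞(V)`: the bounded analytic functions on `V`, with the sup norm. -/
noncomputable def Hinf (V : Set ℂ) : Subalgebra ℂ (V →ᵇ ℂ) where
  carrier := {u | IsAnalytic V u}
  mul_mem' := IsAnalytic.mul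
  add_mem' := IsAnalytic.add
  algebraMap_mem' := IsAnalytic.const

/-- A boundary of the commutative Banach algebra `A`: a set of characters on which every `|f|`,
`f ∈ A`, attains its maximum over all characters. -/
def IsBoundary (A : Type) [NormedCommRing A] [NormedAlgebra ℂ A]
    (B : Set (WeakDual.characterSpace ℂ A)) : Prop :=
  ∀ f : A, ∃ m ∈ B, ∀ m' : WeakDual.characterSpace ℂ A, ‖m' f‖ ≤ ‖m f‖

/-- The Shilov boundary of `A`: the intersection of all closed boundaries. -/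
def shilovBoundary (A : Type) [NormedCommRing A] [NormedAlgebra ℂ A] :
    Set (WeakDual.characterSpace ℂ A) :=
  ⋂₀ {B | IsClosed B ∧ IsBoundary A B}

/-- The values `φ(f)`, `φ ∈ B`, of the Gelfand transform of `f ∈ A` on a set `B` of characters. -/
def gelfandImage (A : Type) [NormedCommRing A] [NormedAlgebra ℂ A] (f : A)
    (B : Set (WeakDual.characterSpace ℂ A)) : Set ℂ :=
  {w | ∃ φ ∈ B, φ f = w}

/-- The characters of `A` that take the value `ζ` at an element of `S`. -/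
def charFibre (A : Type) [NormedCommRing A] [NormedAlgebra ℂ A] (S : Set A) (ζ : ℂ) :
    Set (WeakDual.characterSpace ℂ A) :=
  {φ | ∃ Z ∈ S, φ Z = ζ}

/-- For an algebra `A`, a set `S ⊆ A`, `f ∈ A`, a point `ζ` and a set `R`, with the fibre
`M_ζ = charFibre A S ζ`: the set `f(M_ζ) \ [f(Γ ∩ M_ζ) ∪ R]`, `Γ` the Shilov boundary of `A`. -/
def defect (A : Type) [NormedCommRing A] [NormedAlgebra ℂ A] (S : Set A) (f : A) (ζ : ℂ)
    (R : Set ℂ) : Set ℂ :=
  gelfandImage A f (charFibre A S ζ) \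
    (gelfandImage A f (shilovBoundary A ∩ charFibre A S ζ) ∪ R)

/-- The set whose only element is the coordinate function (`V` is bounded). -/
def coordinate (V : Set ℂ) : Set (Hinf V) := {Z | ∀ z : V, Z.1 z = z}

/-- The range `R(f, ζ)`. -/
def range (V : Set ℂ) (f : V → ℂ) (ζ : ℂ) : Set ℂ :=
  {w | ∃ s : ℕ → V, Tendsto (fun n => (s n : ℂ)) atTop (𝓝 ζ) ∧ ∀ n, f (s n) = w}

/-- The set `f(M_ζ) \ [f(Γ_V ∩ M_ζ) ∪ R(f, ζ)]`, where `Γ_V` is the Shilov boundary of `H^∞(V)`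
and `M_ζ` is the set of the characters of `H^∞(V)` with value `ζ` at the coordinate function. -/
def rangeDefect (V : Set ℂ) (f : Hinf V) (ζ : ℂ) : Set ℂ :=
  defect (Hinf V) (coordinate V) f ζ (range V f.1 ζ)

/-- `ξ` is an essential singularity of the function `g` on `V`: no disc `D` centred at `ξ` admits
an analytic function on `V ∪ D` that agrees with `g` on `V`. -/
def IsEssentialSingularity (V : Set ℂ) (g : V → ℂ) (ξ : ℂ) : Prop :=
  ∀ ρ : ℝ, 0 < ρ → ¬ ∃ G : ℂ → ℂ, DifferentiableOn ℂ G (V ∪ ball ξ ρ) ∧ ∀ z : V, G z = g z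

/-- `E` has logarithmic capacity zero: every probability measure `μ` carried by a compact subset
of `E` has infinite logarithmic energy `∬ log⁺ (1 / |z - w|) dμ dμ`. -/
def LogCapacityZero (E : Set ℂ) : Prop :=
  ∀ (μ : Measure ℂ) (C : Set ℂ), IsProbabilityMeasure μ → IsCompact C → C ⊆ E → μ Cᶜ = 0 →
    ∫⁻ z, ∫⁻ w, logKernel z w ∂μ ∂μ = ⊤

/-! ### `H^∞(V)` is a Banach algebra -/

lemma isClosed_Hinf {V : Set ℂ} (hV : IsOpen V) : IsClosed (Hinf V : Set (V →ᵇ ℂ)) := by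
  classical
  rw [← isSeqClosed_iff_isClosed]
  intro u v hu hv
  choose g hg hug using (fun n => (hu n : IsAnalytic V (u n)))
  refine ⟨fun z => if h : z ∈ V then v ⟨z, h⟩ else 0, ?_, fun z => by simp⟩
  have h1 : TendstoLocallyUniformlyOn g (fun z => if h : z ∈ V then v ⟨z, h⟩ else 0) atTop V := by
    apply TendstoUniformlyOn.tendstoLocallyUniformlyOn
    rw [Metric.tendstoUniformlyOn_iff]
    intro ε hε
    filter_upwards [Metric.tendsto_nhds.1 hv ε hε] with n hn z hz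
    rw [dif_pos hz, ← hug n ⟨z, hz⟩, dist_comm]
    exact (BoundedContinuousFunction.dist_coe_le_dist _).trans_lt hn
  exact h1.differentiableOn (Eventually.of_forall hg) hV

/-- an analytic bounded function as an element of `H^∞(V)` -/
noncomputable def mk {V : Set ℂ} (g : ℂ → ℂ) (hg : DifferentiableOn ℂ g V) (M : ℝ)
    (hM : ∀ z ∈ V, ‖g z‖ ≤ M) : Hinf V :=
  ⟨BoundedContinuousFunction.ofNormedAddCommGroup (fun z : V => g z)
    (hg.continuousOn.comp_continuous continuous_subtype_val (fun z => z.2)) M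
    (fun z => hM z z.2), ⟨g, hg, fun _ => rfl⟩⟩

lemma mk_apply {V : Set ℂ} (g : ℂ → ℂ) (hg : DifferentiableOn ℂ g V) (M : ℝ)
    (hM : ∀ z ∈ V, ‖g z‖ ≤ M) (z : V) : (mk g hg M hM : V →ᵇ ℂ) z = g z := rfl

/-- evaluation at a point -/
noncomputable def evA {V : Set ℂ} (z : V) : Hinf V →ₐ[ℂ] ℂ where
  toFun u := (u : V →ᵇ ℂ) z
  map_one' := rfl
  map_mul' _ _ := rfl
  map_zero' := rfl
  map_add' _ _ := rfl
  commutes' _ := rfl

section complete
variable {V : Set ℂ} [CompleteSpace (Hinf V)]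

noncomputable def ev (z : V) : WeakDual.characterSpace ℂ (Hinf V) :=
  WeakDual.CharacterSpace.equivAlgHom.symm (evA z)

lemma ev_apply (z : V) (u : Hinf V) : ev z u = (u : V →ᵇ ℂ) z := rfl

omit [CompleteSpace (Hinf V)] in
lemma continuous_ap (u : Hinf V) :
    Continuous (fun φ : WeakDual.characterSpace ℂ (Hinf V) => φ u) :=
  (WeakDual.eval_continuous u).comp continuous_subtype_val

lemma char_le (hne : V.Nonempty) (φ : WeakDual.characterSpace ℂ (Hinf V)) (u : Hinf V) :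
    ‖φ u‖ ≤ ‖u‖ := by
  have : Nonempty V := hne.to_subtype
  have h1 : ‖(1 : V →ᵇ ℂ)‖ = 1 := norm_one
  have : NormOneClass (Hinf V) := ⟨h1⟩
  exact AlgHom.norm_apply_le_self (WeakDual.CharacterSpace.equivAlgHom φ) u

/-- a criterion for the Shilov boundary -/
lemma shilov_sub (hne : V.Nonempty) (f : Hinf V) {c : ℝ} (z1 : V) (hz1 : c ≤ ‖(f : V →ᵇ ℂ) z1‖)
    (hmax : ∀ (u : Hinf V) (m : ℝ), 0 ≤ m → (∀ z : V, c ≤ ‖(f : V →ᵇ ℂ) z‖ → ‖(u : V →ᵇ ℂ) z‖ ≤ m) →
      ∀ z : V, ‖(u : V →ᵇ ℂ) z‖ ≤ m) :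
    ∀ φ ∈ shilovBoundary (Hinf V), c ≤ ‖φ f‖ := by
  intro φ hφ
  have hcl : IsClosed {φ : WeakDual.characterSpace ℂ (Hinf V) | c ≤ ‖φ f‖} :=
    isClosed_le continuous_const (continuous_ap f).norm
  have hb : IsBoundary (Hinf V) {φ : WeakDual.characterSpace ℂ (Hinf V) | c ≤ ‖φ f‖} := by
    intro u
    have hne' : {φ : WeakDual.characterSpace ℂ (Hinf V) | c ≤ ‖φ f‖}.Nonempty := ⟨ev z1, hz1⟩
    obtain ⟨m, hm, hm2⟩ := hcl.isCompact.exists_isMaxOn hne' (continuous_ap u).norm.continuousOn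
    refine ⟨m, hm, fun m' => ?_⟩
    have h1 := hmax u ‖m u‖ (norm_nonneg _) (fun z hz => hm2 (show ev z ∈ _ from hz))
    refine (char_le hne m' u).trans ?_
    exact (BoundedContinuousFunction.norm_le (norm_nonneg _)).2 h1
  exact hφ _ ⟨hcl, hb⟩

end complete

lemma cluster_eq {a b : ℂ} {u : ℕ → ℂ} (h : MapClusterPt a atTop u) (ht : Tendsto u atTop (𝓝 b)) :
    a = b := by
  have : NeBot (𝓝 a ⊓ 𝓝 b) := NeBot.mono h (inf_le_inf_left _ ht)
  exact eq_of_nhds_neBot this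

/-- characters over a cluster point of the poles that take a prescribed value in `K` -/
lemma exists_char {K : Set ℂ} (S : Sys K) (hKs : ∀ w ∈ K, ‖w‖ ≤ 1 / 16) [CompleteSpace (Hinf S.V)]
    {ζ : ℂ} {σ : ℕ → ℕ} (hσ : StrictMono σ) (hlim : Tendsto (S.a ∘ σ) atTop (𝓝 ζ))
    {Z f : Hinf S.V} (hZ : ∀ z : S.V, (Z : S.V →ᵇ ℂ) z = z) (hf : ∀ z : S.V, (f : S.V →ᵇ ℂ) z = S.F z)
    {w : ℂ} (hw : w ∈ K) :
    ζ ∈ closure S.V ∧ ∃ φ : WeakDual.characterSpace ℂ (Hinf S.V), φ Z = ζ ∧ φ f = w := by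
  have hwit : ∀ k, ∃ y : S.V, ‖(y : ℂ) - S.a (σ (k + 6))‖ ≤ S.d (σ (k + 6)) ∧
      ‖S.F y - w‖ ≤ 2 / 2 ^ (σ (k + 6)) := by
    intro k
    obtain ⟨y, hy, h1, h2⟩ := S.witness hKs (n := σ (k + 6))
      ((Nat.le_add_left 6 k).trans (hσ.id_le _)) hw
    exact ⟨⟨y, hy⟩, h1, h2⟩
  choose y hy1 hy2 using hwit
  have ht2 : Tendsto (fun k : ℕ => (2 : ℝ) / 2 ^ (σ (k + 6))) atTop (𝓝 0) := by
    have h1 : Tendsto (fun n : ℕ => (2 : ℝ) * (1 / 2) ^ n) atTop (𝓝 (2 * 0)) :=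
      (tendsto_pow_atTop_nhds_zero_of_lt_one (by norm_num) (by norm_num)).const_mul 2
    rw [mul_zero] at h1
    have h2 := h1.comp (hσ.tendsto_atTop.comp (tendsto_add_atTop_nat 6))
    refine h2.congr (fun k => ?_)
    simp only [Function.comp]
    rw [one_div_pow]; ring
  have ht3 : Tendsto (fun k : ℕ => S.d (σ (k + 6))) atTop (𝓝 0) := by
    refine squeeze_zero (fun k => (S.d_pos _).le) (fun k => ?_) ht2
    refine (S.d_le _).trans ?_
    rw [pow_add]
    have : (0 : ℝ) < 2 ^ (σ (k + 6)) := by positivity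
    rw [div_le_div_iff₀ (by positivity) (by positivity)]
    nlinarith
  have hya : Tendsto (fun k => (y k : ℂ)) atTop (𝓝 ζ) := by
    have h1 : Tendsto (fun k => (y k : ℂ) - S.a (σ (k + 6))) atTop (𝓝 0) :=
      squeeze_zero_norm hy1 ht3
    have h2 : Tendsto (fun k => S.a (σ (k + 6))) atTop (𝓝 ζ) :=
      hlim.comp (tendsto_add_atTop_nat 6)
    have h3 := h1.add h2
    rw [zero_add] at h3
    exact h3.congr (fun k => by ring)
  have hyF : Tendsto (fun k => S.F (y k)) atTop (𝓝 w) := by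
    have h1 : Tendsto (fun k => S.F (y k) - w) atTop (𝓝 0) := squeeze_zero_norm hy2 ht2
    have h3 := h1.add_const w
    rw [zero_add] at h3
    exact h3.congr (fun k => by ring)
  refine ⟨mem_closure_of_tendsto hya (Eventually.of_forall (fun k => (y k).2)), ?_⟩
  obtain ⟨φ, hφ⟩ := exists_clusterPt_of_compactSpace (map (fun k => ev (y k)) atTop)
  have h1 : MapClusterPt φ atTop (fun k => ev (y k)) := hφ
  refine ⟨φ, ?_, ?_⟩
  · have h2 := h1.continuousAt_comp (continuous_ap Z).continuousAt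
    refine cluster_eq h2 (hya.congr (fun k => ?_))
    simp only [Function.comp, ev_apply, hZ]
  · have h2 := h1.continuousAt_comp (continuous_ap f).continuousAt
    refine cluster_eq h2 (hyF.congr (fun k => ?_))
    simp only [Function.comp, ev_apply, hf]

/-- the values on the Shilov boundary -/
lemma shilov_big {K : Set ℂ} (S : Sys K) [CompleteSpace (Hinf S.V)] {f : Hinf S.V}
    (hf : ∀ z : S.V, (f : S.V →ᵇ ℂ) z = S.F z) :
    ∀ φ ∈ shilovBoundary (Hinf S.V), 1 / 4 ≤ ‖φ f‖ := by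
  have hr := S.r_pos 0
  have hpn : ‖(S.a 0 + ((2 * S.r 0 : ℝ) : ℂ)) - S.a 0‖ = 2 * S.r 0 := by
    rw [add_sub_cancel_left, norm_real, Real.norm_of_nonneg (by linarith)]
  have hpV : S.a 0 + ((2 * S.r 0 : ℝ) : ℂ) ∈ S.V :=
    S.annulus (n := 0) (by rw [hpn]; linarith) (by rw [hpn]; linarith)
  have hpF : 1 / 4 ≤ ‖S.F (S.a 0 + ((2 * S.r 0 : ℝ) : ℂ))‖ := by
    apply S.F_collar (n := 0) hpn.le
    intro h0
    rw [h0, sub_self, norm_zero] at hpn
    linarith
  apply shilov_sub ⟨_, hpV⟩ f (⟨_, hpV⟩ : S.V) (by rw [hf]; exact hpF)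
  intro u m hm hu z
  obtain ⟨g, hg, hug⟩ := u.2
  have h1 := S.maxp (g := g) (m := m) (G := ‖u‖) hm hg (fun z hz => by
    rw [← hug ⟨z, hz⟩]
    exact (u : S.V →ᵇ ℂ).norm_coe_le_norm ⟨z, hz⟩) (fun z hz hzF => by
    rw [← hug ⟨z, hz⟩]
    exact hu ⟨z, hz⟩ (by rw [hf]; exact hzF)) z z.2
  rw [← hug z] at h1
  exact h1

/-- **Negative answer**: there is a bounded open set `V`, all of whose boundary points are
essential singularities of functions in `H^∞(V)`, with a function `f ∈ H^∞(V)` and a boundary point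
`ζ` such that `f(M_ζ) \ [f(Γ_V ∩ M_ζ) ∪ R(f, ζ)]` does not have logarithmic capacity zero. -/
theorem result : ∃ V : Set ℂ, IsOpen V ∧ Bornology.IsBounded V ∧
    (∀ ξ ∈ frontier V, ∃ g : Hinf V, IsEssentialSingularity V g.1 ξ) ∧
    ∃ f : Hinf V, ∃ ζ ∈ frontier V, ¬ LogCapacityZero (rangeDefect V f ζ) := by
  obtain ⟨S⟩ := exists_sys Cantor.K_kp
  have hKs := Cantor.K_kp.small
  have hcs : CompleteSpace (Hinf S.V) := (isClosed_Hinf S.isOpen_V).completeSpace_coe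
  refine ⟨S.V, S.isOpen_V, isBounded_ball.subset sdiff_subset, ?_, ?_⟩
  · intro ξ hξ
    obtain ⟨g, h1, h2, h3⟩ := S.ess Cantor.K_kp.ne hKs hξ
    refine ⟨mk g h1 3 h2, ?_⟩
    rintro ρ hρ ⟨G, hG, hGg⟩
    exact h3 ρ hρ G hG (fun z hz => by rw [hGg ⟨z, hz⟩]; rfl)
  · -- a cluster point of the poles
    have hb : ∀ k, S.a k ∈ closedBall (0 : ℂ) 1 := by
      intro k
      rw [mem_closedBall_zero_iff]
      linarith [S.a_small k]
    obtain ⟨ζ, -, σ, hσ, hlim⟩ := (isCompact_closedBall (0 : ℂ) 1).tendsto_subseq hb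
    have hnV : ζ ∉ S.V := by
      intro h
      apply h.2
      exact isClosed_closure.mem_of_tendsto hlim (Eventually.of_forall (fun k => S.a_mem_E _))
    -- the data
    let Z : Hinf S.V := mk (fun z => z) differentiableOn_id 2 (fun z hz => by
      have : ‖z‖ < 2 := by simpa using hz.1
      exact this.le)
    let f : Hinf S.V := mk S.F S.differentiableOn_F 3 (fun z hz => S.F_bdd hz)
    have hZ : ∀ z : S.V, (Z : S.V →ᵇ ℂ) z = z := fun _ => rfl
    have hf : ∀ z : S.V, (f : S.V →ᵇ ℂ) z = S.F z := fun _ => rfl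
    have hchar : ∀ w ∈ Cantor.K, ζ ∈ closure S.V ∧
        ∃ φ : WeakDual.characterSpace ℂ (Hinf S.V), φ Z = ζ ∧ φ f = w :=
      fun w hw => exists_char S hKs hσ hlim hZ hf hw
    have hfr : ζ ∈ frontier S.V := by
      rw [S.isOpen_V.frontier_eq]
      obtain ⟨w, hw⟩ := Cantor.K_kp.ne
      exact ⟨(hchar w hw).1, hnV⟩
    refine ⟨f, ζ, hfr, ?_⟩
    intro hcap
    refine absurd (hcap Cantor.μ Cantor.K inferInstance Cantor.K_cpt ?_ Cantor.μ_compl)
      Cantor.energy.ne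
    intro w hw
    obtain ⟨-, φ, h1, h2⟩ := hchar w hw
    refine ⟨⟨φ, ⟨Z, hZ, h1⟩, h2⟩, ?_⟩
    rintro (⟨ψ, ⟨h3, -⟩, h4⟩ | ⟨s, -, h3⟩)
    · have h5 := shilov_big S hf ψ h3
      rw [h4] at h5
      have := hKs w hw
      linarith
    · have h4 := h3 0
      rw [hf] at h4
      apply S.omits (s 0).2
      rw [h4]; exact hw

end Pool.Agent.Results.MP_83fe1a_an.CapacityOfRangeDefect
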